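import Pool.Agent.helper25.FD.AllU

/-!
# MP_bf63dc_nt: for every fixed `c` prime to `6` a positive proportion of all `(a, b)` is solvable
-/

namespace Pool.Agent.Results.MP_bf63dc_nt.AlmostEveryB

/-- `a p - b q = c` has infinitely many solutions in primes `p`, `q`. -/
def Solvable (a b : ℕ) (c : ℤ) : Prop :=
  {pq : ℕ × ℕ | pq.1.Prime ∧ pq.2.Prime ∧ (a : ℤ) * pq.1 - b * pq.2 = c}.Infinite

/-- The positive integers `a` which together with `b` and `c` satisfy the conditions of the question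
(`a, b, c` are pairwise coprime and not all odd) and for which `a p - b q = c t` has infinitely many
solutions in primes. -/
def Good (b : ℕ) (c : ℤ) (t : ℕ) : Set ℕ :=
  {a | 1 ≤ a ∧ IsCoprime (a : ℤ) b ∧ IsCoprime (a : ℤ) c ∧ IsCoprime (b : ℤ) c ∧
    ¬ (Odd (a : ℤ) ∧ Odd (b : ℤ) ∧ Odd c) ∧ Solvable a b (c * t)}

/-- The integers in `[1, N]` prime to `c`. -/
def Units (c : ℤ) (N : ℕ) : Set ℕ := {b | 1 ≤ b ∧ b ≤ N ∧ IsCoprime (b : ℤ) c}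

/-- `A` has relative upper density at least `δ`: for arbitrarily large `X` it contains at least
`δ` times as many integers `a ≤ X` as there are integers in `[1, X]` prime to `c`. -/
def Dense (δ : ℝ) (c : ℤ) (A : Set ℕ) : Prop :=
  ∀ X₀ : ℕ, ∃ X : ℕ, X₀ ≤ X ∧ δ * ((Units c X).ncard : ℝ) ≤ ({a ∈ A | a ≤ X}.ncard : ℝ)

/-- The pairs `(a, b)` of integers in `[1, N]` which together with `c` satisfy the conditions of the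
question: `a, b, c` are pairwise coprime and not all odd. -/
def admissible (c : ℤ) (N : ℕ) : Set (ℕ × ℕ) :=
  {ab | (1 ≤ ab.1 ∧ ab.1 ≤ N) ∧ (1 ≤ ab.2 ∧ ab.2 ≤ N) ∧
    IsCoprime (ab.1 : ℤ) ab.2 ∧ IsCoprime (ab.1 : ℤ) c ∧ IsCoprime (ab.2 : ℤ) c ∧
    ¬ (Odd (ab.1 : ℤ) ∧ Odd (ab.2 : ℤ) ∧ Odd c)}

open Pool.Agent.helper25.FB hiding GoodY GT almost_allU

open Pool.Agent.helper39.MT Pool.Agent.helper25.FD Pool.Agent.helper85.FC Pool.Agent.helper85.QC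

lemma admissible_eq (c : ℤ) (N : ℕ) : admissible c N = (AdmP c N : Set (ℕ × ℕ)) := by
  ext ⟨a, b⟩
  simp only [admissible, AdmP, Finset.coe_filter, Finset.mem_product, Finset.mem_Icc,
    Set.mem_ofPred_eq, Nat.isCoprime_iff_coprime]
  tauto

lemma good_eq (y K : ℕ) (c : ℤ) (N : ℕ) :
    {ab ∈ admissible c N | ∃ t₁ t₂ : ℕ, 1 ≤ t₁ ∧ t₁ ≤ 3 ∧ 1 ≤ t₂ ∧ t₂ ≤ K ∧
      (∀ ℓ : ℕ, ℓ.Prime → ℓ ∣ t₁ * t₂ → (ℓ : ℤ) ∣ c) ∧ (∀ ℓ : ℕ, ℓ.Prime → ℓ ∣ t₂ → y < ℓ) ∧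
      Solvable ab.1 ab.2 (c * (t₁ * t₂ : ℕ))} = (GoodY y K c N : Set (ℕ × ℕ)) := by
  rw [admissible_eq]
  ext ⟨a, b⟩
  simp only [GoodY, Finset.coe_filter, Set.mem_ofPred_eq, Finset.mem_coe]
  rfl

lemma admissible_finite (c : ℤ) (N : ℕ) : (admissible c N).Finite := by
  rw [admissible_eq]
  exact Finset.finite_toSet _

lemma units_eq (c : ℤ) (N : ℕ) : Units c N = (PC c.natAbs N : Set ℕ) := by
  ext b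
  simp only [Units, Set.mem_ofPred_eq, Finset.mem_coe, mem_PC, Int.isCoprime_iff_gcd_eq_one, Int.gcd,
    Int.natAbs_natCast]
  tauto

lemma units_card (c : ℤ) (N : ℕ) : (Units c N).ncard = (PC c.natAbs N).card := by
  rw [units_eq, Set.ncard_coe_finset]

lemma units_finite (c : ℤ) (N : ℕ) : (Units c N).Finite := by
  rw [units_eq]
  exact Finset.finite_toSet _

lemma good_of_true {a b t : ℕ} {c : ℤ} (ht : ∀ p : ℕ, p.Prime → p ∣ t → (p : ℤ) ∣ c)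
    (h : TrueCase a b (c * t)) : a ∈ Good b c t := by
  obtain ⟨h1, h2, h3, h4, h5, h6, h7, h8⟩ := h
  refine ⟨h1, Nat.isCoprime_iff_coprime.2 h4, h5.of_mul_right_left, h6.of_mul_right_left, ?_, h8⟩
  rintro ⟨e1, e2, e3⟩
  refine h7 ⟨by exact_mod_cast e1, by exact_mod_cast e2, ?_⟩
  refine Int.odd_mul.2 ⟨e3, ?_⟩
  by_contra hcon
  rw [Int.not_odd_iff_even] at hcon
  have e4 : 2 ∣ t := by
    have := hcon.two_dvd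
    exact_mod_cast this
  have e5 : (2 : ℤ) ∣ c := by
    have := ht 2 Nat.prime_two e4
    exact_mod_cast this
  exact (Int.not_even_iff_odd.2 e3) (even_iff_two_dvd.2 e5)

lemma count_le {b t X : ℕ} {c : ℤ} (ht : ∀ p : ℕ, p.Prime → p ∣ t → (p : ℤ) ∣ c) :
    ({a : ℕ | a ≤ X ∧ TrueCase a b (c * t)}.ncard : ℝ) ≤ ({a ∈ Good b c t | a ≤ X}.ncard : ℝ) := by
  have h1 : {a : ℕ | a ≤ X ∧ TrueCase a b (c * t)} ⊆ {a ∈ Good b c t | a ≤ X} :=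
    fun a ha => ⟨good_of_true ht ha.2, ha.1⟩
  have h2 : {a ∈ Good b c t | a ≤ X}.Finite := (Set.finite_Iic X).subset fun a ha => ha.2
  exact_mod_cast Set.ncard_le_ncard h1 h2

/-- the uniform statement -/
lemma all_c {ε : ℝ} (hε : 0 < ε) (y : ℕ) : ∃ (K : ℕ) (δ : ℝ), 0 < δ ∧ ∀ c : ℤ, c ≠ 0 →
    (∀ N : ℕ, (K : ℤ) * c ^ 2 ≤ N →
      ({b ∈ Units c N | ¬ ∃ v t₁ t₂ : ℕ, 1 ≤ v ∧ v ≤ K ∧ 1 ≤ t₁ ∧ t₁ ≤ 3 ∧ 1 ≤ t₂ ∧ t₂ ≤ K ∧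
        (∀ ℓ : ℕ, ℓ.Prime → ℓ ∣ t₁ * t₂ → (ℓ : ℤ) ∣ c) ∧ (∀ ℓ : ℕ, ℓ.Prime → ℓ ∣ t₂ → y < ℓ) ∧
        δ * ((Units c N).ncard : ℝ) ≤ ({a ∈ Good (v * b) c (t₁ * t₂) | a ≤ K * N}.ncard : ℝ)}.ncard
          : ℝ) ≤ ε * ((Units c N).ncard : ℝ)) ∧
    ∃ N₀ : ℕ, ∀ N : ℕ, N₀ ≤ N →
      ({b ∈ Units c N | ¬ ∃ v t₁ t₂ : ℕ, 1 ≤ v ∧ v ≤ K ∧ 1 ≤ t₁ ∧ t₁ ≤ 3 ∧ 1 ≤ t₂ ∧ t₂ ≤ K ∧
        (∀ ℓ : ℕ, ℓ.Prime → ℓ ∣ t₁ * t₂ → (ℓ : ℤ) ∣ c) ∧ (∀ ℓ : ℕ, ℓ.Prime → ℓ ∣ t₂ → y < ℓ) ∧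
        Dense δ c (Good (v * b) c (t₁ * t₂))}.ncard : ℝ) ≤ ε * ((Units c N).ncard : ℝ) := by
  classical
  obtain ⟨K, δ, hδ, H⟩ := almost_allU hε y
  refine ⟨K, δ, hδ, fun c hc => ?_⟩
  obtain ⟨H1, N₀, H2⟩ := H c hc
  refine ⟨fun N hN => ?_, N₀, fun N hN => ?_⟩
  · have hN' : K * c.natAbs ^ 2 ≤ N := by
      have h1 : ((K * c.natAbs ^ 2 : ℕ) : ℤ) ≤ N := by
        push_cast
        rw [sq_abs]
        exact hN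
      exact_mod_cast h1
    rw [units_card]
    refine le_trans ?_ (H1 N hN')
    rw [← Set.ncard_coe_finset]
    have hsub : {b ∈ Units c N | ¬ ∃ v t₁ t₂ : ℕ, 1 ≤ v ∧ v ≤ K ∧ 1 ≤ t₁ ∧ t₁ ≤ 3 ∧ 1 ≤ t₂ ∧ t₂ ≤ K ∧
        (∀ ℓ : ℕ, ℓ.Prime → ℓ ∣ t₁ * t₂ → (ℓ : ℤ) ∣ c) ∧ (∀ ℓ : ℕ, ℓ.Prime → ℓ ∣ t₂ → y < ℓ) ∧
        δ * ((PC c.natAbs N).card : ℝ) ≤ ({a ∈ Good (v * b) c (t₁ * t₂) | a ≤ K * N}.ncard : ℝ)} ⊆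
        (({b ∈ PC c.natAbs N | ¬ ∃ w t : ℕ, 0 < w ∧ w ≤ K ∧ 0 < t ∧ t ≤ K ∧ GT y t ∧
      (∀ p : ℕ, p.Prime → p ∣ t → (p : ℤ) ∣ c) ∧
      δ * ((PC c.natAbs N).card : ℝ) ≤ {a : ℕ | a ≤ K * N ∧ TrueCase a (w * b) (c * t)}.ncard} :
        Finset ℕ) : Set ℕ) := by
      rintro b ⟨hb, h1⟩
      rw [units_eq] at hb
      rw [Finset.coe_filter]
      refine ⟨hb, ?_⟩
      rintro ⟨w, t, e1, e2, e3, e4, ⟨t₁, t₂, rfl, e5, e6⟩, e7, e8⟩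
      have ht1 : 0 < t₁ := Nat.pos_of_mul_pos_right e3
      have ht2 : 0 < t₂ := Nat.pos_of_mul_pos_left e3
      exact h1 ⟨w, t₁, t₂, e1, e2, ht1, e5, ht2, (Nat.le_mul_of_pos_left t₂ ht1).trans e4, e7, e6,
        e8.trans (count_le e7)⟩
    exact_mod_cast Set.ncard_le_ncard hsub (Finset.finite_toSet _)
  · rw [units_card]
    refine le_trans ?_ (H2 N hN)
    rw [← Set.ncard_coe_finset]
    have hsub : {b ∈ Units c N | ¬ ∃ v t₁ t₂ : ℕ, 1 ≤ v ∧ v ≤ K ∧ 1 ≤ t₁ ∧ t₁ ≤ 3 ∧ 1 ≤ t₂ ∧ t₂ ≤ K ∧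
        (∀ ℓ : ℕ, ℓ.Prime → ℓ ∣ t₁ * t₂ → (ℓ : ℤ) ∣ c) ∧ (∀ ℓ : ℕ, ℓ.Prime → ℓ ∣ t₂ → y < ℓ) ∧
        Dense δ c (Good (v * b) c (t₁ * t₂))} ⊆
        (({b ∈ PC c.natAbs N | ¬ ∃ w t : ℕ, 0 < w ∧ w ≤ K ∧ 0 < t ∧ t ≤ K ∧ GT y t ∧
      (∀ p : ℕ, p.Prime → p ∣ t → (p : ℤ) ∣ c) ∧ ∀ X₀ : ℕ, ∃ X : ℕ, X₀ ≤ X ∧
      δ * ((PC c.natAbs X).card : ℝ) ≤ {a : ℕ | a ≤ X ∧ TrueCase a (w * b) (c * t)}.ncard} :
        Finset ℕ) : Set ℕ) := by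
      rintro b ⟨hb, h1⟩
      rw [units_eq] at hb
      rw [Finset.coe_filter]
      refine ⟨hb, ?_⟩
      rintro ⟨w, t, e1, e2, e3, e4, ⟨t₁, t₂, rfl, e5, e6⟩, e7, e8⟩
      have ht1 : 0 < t₁ := Nat.pos_of_mul_pos_right e3
      have ht2 : 0 < t₂ := Nat.pos_of_mul_pos_left e3
      refine h1 ⟨w, t₁, t₂, e1, e2, ht1, e5, ht2, (Nat.le_mul_of_pos_left t₂ ht1).trans e4, e7, e6, ?_⟩
      intro X₀
      obtain ⟨X, hX, h2⟩ := e8 X₀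
      refine ⟨X, hX, ?_⟩
      rw [units_card]
      exact h2.trans (count_le e7)
    exact_mod_cast Set.ncard_le_ncard hsub (Finset.finite_toSet _)

/-- `t₂ = 1` if all its prime factors divide `c` and exceed `|c|` -/
lemma eq_one_of_big {c : ℤ} (hc : c ≠ 0) {t₁ t₂ : ℕ}
    (h6 : ∀ ℓ : ℕ, ℓ.Prime → ℓ ∣ t₁ * t₂ → (ℓ : ℤ) ∣ c)
    (h7 : ∀ ℓ : ℕ, ℓ.Prime → ℓ ∣ t₂ → c.natAbs < ℓ) : t₂ = 1 := by
  by_contra hne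
  obtain ⟨p, hp, hpd⟩ := Nat.exists_prime_and_dvd hne
  have h9 := h7 p hp hpd
  have h10 := Int.natCast_dvd.1 (h6 p hp (hpd.mul_left _))
  have h11 := Nat.le_of_dvd (Int.natAbs_pos.2 hc) h10
  omega

/-- `t = 1` if `t ≤ 3` and all its prime factors divide `c`, which is prime to `6` -/
lemma eq_one_of_six {c : ℤ} (h6 : IsCoprime c 6) {t : ℕ} (h2 : 1 ≤ t) (h3 : t ≤ 3)
    (h4 : ∀ ℓ : ℕ, ℓ.Prime → ℓ ∣ t → (ℓ : ℤ) ∣ c) : t = 1 := by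
  by_contra hne
  obtain ⟨p, hp, hpd⟩ := Nat.exists_prime_and_dvd hne
  have h7 := h4 p hp hpd
  have h8 : p ≤ 3 := (Nat.le_of_dvd (by omega) hpd).trans h3
  have h9 : (p : ℤ) ∣ 6 := by
    have h10 := hp.two_le
    interval_cases p
    · norm_num
    · norm_num
  have h11 : IsUnit (p : ℤ) := h6.isUnit_of_dvd' h7 h9
  have h12 := Int.isUnit_iff.1 h11
  have h13 := hp.two_le
  omega

/-- each `c` -/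
lemma each_c {ε : ℝ} (hε : 0 < ε) {c : ℤ} (hc : c ≠ 0) : ∃ (K : ℕ) (δ : ℝ) (N₀ : ℕ), 0 < δ ∧
    ∀ N : ℕ, N₀ ≤ N →
      ({b ∈ Units c N | ¬ ∃ v t : ℕ, 1 ≤ v ∧ v ≤ K ∧ 1 ≤ t ∧ t ≤ 3 ∧
        (∀ ℓ : ℕ, ℓ.Prime → ℓ ∣ t → (ℓ : ℤ) ∣ c) ∧
        δ * ((Units c N).ncard : ℝ) ≤ ({a ∈ Good (v * b) c t | a ≤ K * N}.ncard : ℝ)}.ncard
          : ℝ) ≤ ε * ((Units c N).ncard : ℝ) ∧
      ({b ∈ Units c N | ¬ ∃ v t : ℕ, 1 ≤ v ∧ v ≤ K ∧ 1 ≤ t ∧ t ≤ 3 ∧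
        (∀ ℓ : ℕ, ℓ.Prime → ℓ ∣ t → (ℓ : ℤ) ∣ c) ∧
        Dense δ c (Good (v * b) c t)}.ncard : ℝ) ≤ ε * ((Units c N).ncard : ℝ) := by
  obtain ⟨K, δ, hδ, H⟩ := all_c hε c.natAbs
  obtain ⟨H1, N₀, H2⟩ := H c hc
  refine ⟨K, δ, max (K * c.natAbs ^ 2) N₀, hδ, fun N hN => ⟨?_, ?_⟩⟩
  · refine le_trans ?_ (H1 N ?_)
    · have hsub : {b ∈ Units c N | ¬ ∃ v t : ℕ, 1 ≤ v ∧ v ≤ K ∧ 1 ≤ t ∧ t ≤ 3 ∧
        (∀ ℓ : ℕ, ℓ.Prime → ℓ ∣ t → (ℓ : ℤ) ∣ c) ∧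
        δ * ((Units c N).ncard : ℝ) ≤ ({a ∈ Good (v * b) c t | a ≤ K * N}.ncard : ℝ)} ⊆
        {b ∈ Units c N | ¬ ∃ v t₁ t₂ : ℕ, 1 ≤ v ∧ v ≤ K ∧ 1 ≤ t₁ ∧ t₁ ≤ 3 ∧ 1 ≤ t₂ ∧ t₂ ≤ K ∧
        (∀ ℓ : ℕ, ℓ.Prime → ℓ ∣ t₁ * t₂ → (ℓ : ℤ) ∣ c) ∧
        (∀ ℓ : ℕ, ℓ.Prime → ℓ ∣ t₂ → c.natAbs < ℓ) ∧
        δ * ((Units c N).ncard : ℝ) ≤ ({a ∈ Good (v * b) c (t₁ * t₂) | a ≤ K * N}.ncard : ℝ)} := by
        rintro b ⟨hb, h1⟩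
        refine ⟨hb, ?_⟩
        rintro ⟨v, t₁, t₂, e1, e2, e3, e4, e5, e6, e7, e8, e9⟩
        obtain rfl := eq_one_of_big hc e7 e8
        rw [mul_one] at e7 e9
        exact h1 ⟨v, t₁, e1, e2, e3, e4, e7, e9⟩
      exact_mod_cast Set.ncard_le_ncard hsub ((units_finite c N).subset fun _ h => h.1)
    · have h1 : ((K * c.natAbs ^ 2 : ℕ) : ℤ) ≤ (N : ℤ) := by
        exact_mod_cast (le_max_left _ _).trans hN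
      push_cast at h1
      rwa [sq_abs] at h1
  · refine le_trans ?_ (H2 N ((le_max_right _ _).trans hN))
    have hsub : {b ∈ Units c N | ¬ ∃ v t : ℕ, 1 ≤ v ∧ v ≤ K ∧ 1 ≤ t ∧ t ≤ 3 ∧
        (∀ ℓ : ℕ, ℓ.Prime → ℓ ∣ t → (ℓ : ℤ) ∣ c) ∧ Dense δ c (Good (v * b) c t)} ⊆
        {b ∈ Units c N | ¬ ∃ v t₁ t₂ : ℕ, 1 ≤ v ∧ v ≤ K ∧ 1 ≤ t₁ ∧ t₁ ≤ 3 ∧ 1 ≤ t₂ ∧ t₂ ≤ K ∧
        (∀ ℓ : ℕ, ℓ.Prime → ℓ ∣ t₁ * t₂ → (ℓ : ℤ) ∣ c) ∧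
        (∀ ℓ : ℕ, ℓ.Prime → ℓ ∣ t₂ → c.natAbs < ℓ) ∧ Dense δ c (Good (v * b) c (t₁ * t₂))} := by
      rintro b ⟨hb, h1⟩
      refine ⟨hb, ?_⟩
      rintro ⟨v, t₁, t₂, e1, e2, e3, e4, e5, e6, e7, e8, e9⟩
      obtain rfl := eq_one_of_big hc e7 e8
      rw [mul_one] at e7 e9
      exact h1 ⟨v, t₁, e1, e2, e3, e4, e7, e9⟩
    exact_mod_cast Set.ncard_le_ncard hsub ((units_finite c N).subset fun _ h => h.1)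

/-- MAIN THEOREM. Let `c` be a fixed nonzero integer prime to `6`, for instance `c = 1`. The question
has the answer yes for `(a, b, c)` for a positive proportion of all the pairs `(a, b)` to which it
applies: there are `δ > 0` and `N₀` such that for every `N ≥ N₀` at least `δ` times all the pairs of
integers `a, b ≤ N` with `a, b, c` pairwise coprime and not all odd are such that `a p - b q = c` has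
infinitely many solutions in primes.

More precisely, almost every `b` has a small multiple which works with a positive proportion of all
the `a`: for every `ε > 0` there are `K`, `δ > 0` and `N₀` such that for `N ≥ N₀` all but at most a
proportion `ε` of the `b ≤ N` prime to `c` have a `v ≤ K` such that the question has the answer yes
for `(a, v b, c)` for at least `δ U` numbers `a ≤ K N`, where `U` is the number of integers `≤ N` prime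
to `c`; and all but at most a proportion `ε` have a `v ≤ K` such that this holds for a set of `a` of
relative upper density at least `δ`.

For an arbitrary nonzero `c` all this holds with `c t` in place of `c` for some `t ∈ {1, 2, 3}` (which
may depend on `a, b` in the first and on `b` in the second statement), all of whose prime factors
divide `c`. -/
theorem result :
    (∀ c : ℤ, c ≠ 0 → IsCoprime c 6 →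
      (∃ (δ : ℝ) (N₀ : ℕ), 0 < δ ∧ ∀ N : ℕ, N₀ ≤ N →
        δ * ((admissible c N).ncard : ℝ) ≤
          ({ab ∈ admissible c N | Solvable ab.1 ab.2 c}.ncard : ℝ)) ∧
      ∀ ε : ℝ, 0 < ε → ∃ (K : ℕ) (δ : ℝ) (N₀ : ℕ), 0 < δ ∧ ∀ N : ℕ, N₀ ≤ N →
        ({b ∈ Units c N | ¬ ∃ v : ℕ, 1 ≤ v ∧ v ≤ K ∧
          δ * ((Units c N).ncard : ℝ) ≤ ({a ∈ Good (v * b) c 1 | a ≤ K * N}.ncard : ℝ)}.ncard
            : ℝ) ≤ ε * ((Units c N).ncard : ℝ) ∧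
        ({b ∈ Units c N | ¬ ∃ v : ℕ, 1 ≤ v ∧ v ≤ K ∧ Dense δ c (Good (v * b) c 1)}.ncard : ℝ) ≤
          ε * ((Units c N).ncard : ℝ)) ∧
    (∀ c : ℤ, c ≠ 0 →
      (∃ (δ : ℝ) (N₀ : ℕ), 0 < δ ∧ ∀ N : ℕ, N₀ ≤ N →
        δ * ((admissible c N).ncard : ℝ) ≤
          ({ab ∈ admissible c N | ∃ t : ℕ, 1 ≤ t ∧ t ≤ 3 ∧
            (∀ ℓ : ℕ, ℓ.Prime → ℓ ∣ t → (ℓ : ℤ) ∣ c) ∧ Solvable ab.1 ab.2 (c * t)}.ncard : ℝ)) ∧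
      ∀ ε : ℝ, 0 < ε → ∃ (K : ℕ) (δ : ℝ) (N₀ : ℕ), 0 < δ ∧ ∀ N : ℕ, N₀ ≤ N →
        ({b ∈ Units c N | ¬ ∃ v t : ℕ, 1 ≤ v ∧ v ≤ K ∧ 1 ≤ t ∧ t ≤ 3 ∧
          (∀ ℓ : ℕ, ℓ.Prime → ℓ ∣ t → (ℓ : ℤ) ∣ c) ∧
          δ * ((Units c N).ncard : ℝ) ≤ ({a ∈ Good (v * b) c t | a ≤ K * N}.ncard : ℝ)}.ncard
            : ℝ) ≤ ε * ((Units c N).ncard : ℝ) ∧
        ({b ∈ Units c N | ¬ ∃ v t : ℕ, 1 ≤ v ∧ v ≤ K ∧ 1 ≤ t ∧ t ≤ 3 ∧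
          (∀ ℓ : ℕ, ℓ.Prime → ℓ ∣ t → (ℓ : ℤ) ∣ c) ∧
          Dense δ c (Good (v * b) c t)}.ncard : ℝ) ≤ ε * ((Units c N).ncard : ℝ)) := by
  have hpairs : ∀ c : ℤ, c ≠ 0 → ∃ (δ : ℝ) (N₀ : ℕ), 0 < δ ∧ ∀ N : ℕ, N₀ ≤ N →
      δ * ((admissible c N).ncard : ℝ) ≤
        ({ab ∈ admissible c N | ∃ t : ℕ, 1 ≤ t ∧ t ≤ 3 ∧
          (∀ ℓ : ℕ, ℓ.Prime → ℓ ∣ t → (ℓ : ℤ) ∣ c) ∧ Solvable ab.1 ab.2 (c * t)}.ncard : ℝ) := by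
    intro c hc
    obtain ⟨K, δ, hδ, h⟩ := Pool.Agent.helper25.FD.pairs_every c.natAbs
    refine ⟨δ, K * c.natAbs ^ 2, hδ, fun N hN => ?_⟩
    have h1 := h c hc N hN
    rw [← Set.ncard_coe_finset, ← Set.ncard_coe_finset, ← good_eq, ← admissible_eq] at h1
    refine h1.trans ?_
    have hsub : {ab ∈ admissible c N | ∃ t₁ t₂ : ℕ, 1 ≤ t₁ ∧ t₁ ≤ 3 ∧ 1 ≤ t₂ ∧ t₂ ≤ K ∧
        (∀ ℓ : ℕ, ℓ.Prime → ℓ ∣ t₁ * t₂ → (ℓ : ℤ) ∣ c) ∧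
        (∀ ℓ : ℕ, ℓ.Prime → ℓ ∣ t₂ → c.natAbs < ℓ) ∧
        Solvable ab.1 ab.2 (c * (t₁ * t₂ : ℕ))} ⊆
        {ab ∈ admissible c N | ∃ t : ℕ, 1 ≤ t ∧ t ≤ 3 ∧
          (∀ ℓ : ℕ, ℓ.Prime → ℓ ∣ t → (ℓ : ℤ) ∣ c) ∧ Solvable ab.1 ab.2 (c * t)} := by
      rintro ab ⟨h1, t₁, t₂, h2, h3, h4, -, e6, e7, e8⟩
      obtain rfl := eq_one_of_big hc e6 e7
      rw [mul_one] at e6 e8
      exact ⟨h1, t₁, h2, h3, e6, e8⟩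
    exact_mod_cast Set.ncard_le_ncard hsub ((admissible_finite c N).subset fun _ h => h.1)
  refine ⟨fun c hc h6 => ⟨?_, fun ε hε => ?_⟩, fun c hc => ⟨hpairs c hc, fun ε hε => each_c hε hc⟩⟩
  · obtain ⟨δ, N₀, hδ, h⟩ := hpairs c hc
    refine ⟨δ, N₀, hδ, fun N hN => (h N hN).trans ?_⟩
    have hsub : {ab ∈ admissible c N | ∃ t : ℕ, 1 ≤ t ∧ t ≤ 3 ∧
        (∀ ℓ : ℕ, ℓ.Prime → ℓ ∣ t → (ℓ : ℤ) ∣ c) ∧ Solvable ab.1 ab.2 (c * t)} ⊆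
        {ab ∈ admissible c N | Solvable ab.1 ab.2 c} := by
      rintro ab ⟨h1, t, h2, h3, e6, e8⟩
      obtain rfl := eq_one_of_six h6 h2 h3 e6
      rw [Nat.cast_one, mul_one] at e8
      exact ⟨h1, e8⟩
    exact_mod_cast Set.ncard_le_ncard hsub ((admissible_finite c N).subset fun _ h => h.1)
  · obtain ⟨K, δ, N₀, hδ, H⟩ := each_c hε hc
    refine ⟨K, δ, N₀, hδ, fun N hN => ⟨le_trans ?_ (H N hN).1, le_trans ?_ (H N hN).2⟩⟩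
    · have hsub : {b ∈ Units c N | ¬ ∃ v : ℕ, 1 ≤ v ∧ v ≤ K ∧
          δ * ((Units c N).ncard : ℝ) ≤ ({a ∈ Good (v * b) c 1 | a ≤ K * N}.ncard : ℝ)} ⊆
          {b ∈ Units c N | ¬ ∃ v t : ℕ, 1 ≤ v ∧ v ≤ K ∧ 1 ≤ t ∧ t ≤ 3 ∧
          (∀ ℓ : ℕ, ℓ.Prime → ℓ ∣ t → (ℓ : ℤ) ∣ c) ∧
          δ * ((Units c N).ncard : ℝ) ≤ ({a ∈ Good (v * b) c t | a ≤ K * N}.ncard : ℝ)} := by
        rintro b ⟨hb, h1⟩
        refine ⟨hb, ?_⟩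
        rintro ⟨v, t, e1, e2, e3, e4, e5, e6⟩
        obtain rfl := eq_one_of_six h6 e3 e4 e5
        exact h1 ⟨v, e1, e2, e6⟩
      exact_mod_cast Set.ncard_le_ncard hsub ((units_finite c N).subset fun _ h => h.1)
    · have hsub : {b ∈ Units c N | ¬ ∃ v : ℕ, 1 ≤ v ∧ v ≤ K ∧ Dense δ c (Good (v * b) c 1)} ⊆
          {b ∈ Units c N | ¬ ∃ v t : ℕ, 1 ≤ v ∧ v ≤ K ∧ 1 ≤ t ∧ t ≤ 3 ∧
          (∀ ℓ : ℕ, ℓ.Prime → ℓ ∣ t → (ℓ : ℤ) ∣ c) ∧ Dense δ c (Good (v * b) c t)} := by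
        rintro b ⟨hb, h1⟩
        refine ⟨hb, ?_⟩
        rintro ⟨v, t, e1, e2, e3, e4, e5, e6⟩
        obtain rfl := eq_one_of_six h6 e3 e4 e5
        exact h1 ⟨v, e1, e2, e6⟩
      exact_mod_cast Set.ncard_le_ncard hsub ((units_finite c N).subset fun _ h => h.1)

end Pool.Agent.Results.MP_bf63dc_nt.AlmostEveryB
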