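import Pool.Agent.helper4.AL.TopM

/-!
# An unconditional alternative for `a p - b q = c`

EITHER Q1 holds for `a = b = 1` and almost all even `c` (with a power saving in every interval), OR for EVERY pair of coprime `a, b ≥ 1`
it holds for a positive proportion of all `c`, with gaps at most `C (a + b)`, one constant `C` for all pairs; and this in every
residue class.

`c` is true for `(a, b)` (`TrueCase a b c`) if `a, b, c` satisfy the conditions of Q1 (`Poss a b c`) and `a p - b q = c` has infinitely
many solutions in primes.

THEOREM. For every `m ≥ 1` at least one of (A), (B) holds.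
(A) There is `K` such that for all `u`, `N` at most `N ^ (1 - 1 / K)` of the multiples `c ≠ 0` of `2 m` in `(u, u + N]` are not true for
`(1, 1)`, that is `p - q = c` infinitely often for all the others.
(B) There is `C` such that for ALL `(a, b, c')` which satisfy the conditions of Q1 every interval of length `C (a + b)` contains a
`c ≡ c'` modulo `m` which is true for `(a, b)`; and every long interval of `M` integers contains at least `(d - ε) M ∏ (1 - 2 / l)` such
`c`, where `l` runs through the primes `l ≥ 5` which divide `a b` and not `m`, and `d ≥ 1 / (12 m)` is given by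
`m d = 1` or `1 / 2` (`m` even or odd) times `1 / 4` or `1 / 6` (`3 ∣ m` or not).

PROOF. Rows and complete proofs in `Pool/Agent/helper7/AL/Spec.lean` and `SpecM.lean`.  The input are sieve weights of Maynard's type
for `4 k` linear forms in four clusters of `k` forms, a majorant for pairs of primes in the same cluster which is improved by
switching (Chen), and the theorem of Bombieri and Vinogradov (level of distribution `1/2`), all proved in the files imported: if the
forms of the four clusters are admissible, there is a pair of forms from two different clusters which are prime simultaneously for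
infinitely many `n`.  If (A) fails, then by the theorem of Kovari, Sos and Turan there are two sets `X`, `Y` of `k` integers, all
`y - x ≠ 0` divisible by `2 m` and none of them true, in fixed residue classes modulo all small primes.  Given `(a, b, c')`, every
interval of length `C (a + b)` contains `c₀ = a h - b h'` in suitable residue classes such that the four clusters `b n + h + X`,
`b n + h + Y`, `a n + h' + X`, `a n + h' + Y` are admissible.  Two of the forms are prime simultaneously for infinitely many `n`.  The
clusters with the same slope cannot give such a pair (it would make a difference `y - x` true).  So it comes from two different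
slopes, and `c = a (h + z) - b (h' + z')` is true for `(a, b)`, where `z, z' ∈ X ∪ Y`, so `c` is near `c₀` and `≡ c'` modulo `m`.
-/

set_option autoImplicit false

namespace Pool.Agent.Results.MP_bf63dc_nt.Alternative

open Finset

/-- The conditions of Q1: `a, b ≥ 1`, `c ≠ 0`, pairwise relatively prime, not all odd. -/
def Poss (a b : ℕ) (c : ℤ) : Prop :=
  0 < a ∧ 0 < b ∧ c ≠ 0 ∧ Nat.Coprime a b ∧ IsCoprime (a : ℤ) c ∧ IsCoprime (b : ℤ) c ∧
    ¬ (Odd a ∧ Odd b ∧ Odd c)

/-- `c` is true for `(a, b)`: the conditions of Q1 hold and `a p - b q = c` has infinitely many solutions in primes. -/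
def TrueCase (a b : ℕ) (c : ℤ) : Prop :=
  Poss a b c ∧ {pq : ℕ × ℕ | pq.1.Prime ∧ pq.2.Prime ∧ (a : ℤ) * pq.1 - b * pq.2 = c}.Infinite

theorem hT : Pool.Agent.helper85.FC.TrueCase = TrueCase := by
  funext a b c
  unfold Pool.Agent.helper85.FC.TrueCase TrueCase Poss
  simp only [and_assoc]

theorem hP : Pool.Agent.AL.Poss = Poss := rfl

/-- **The alternative.** -/
theorem result : ∀ m : ℕ, 1 ≤ m →
    -- (A) all multiples `c` of `2 m` with a power saving, for `a = b = 1`
    (∃ K : ℕ, 1 ≤ K ∧ ∀ (u : ℤ) (N : ℕ),
      ({c : ℤ | u < c ∧ c ≤ u + N ∧ c ≠ 0 ∧ ((2 * m : ℕ) : ℤ) ∣ c ∧ ¬ TrueCase 1 1 c}.ncard : ℝ) ≤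
        (N : ℝ) ^ (1 - 1 / (K : ℝ))) ∨
    -- (B) every pair of coprime coefficients: gaps, and a positive proportion
    ((∃ C : ℕ, ∀ (a b : ℕ) (c' : ℤ), Poss a b c' → ∀ u : ℤ,
        ∃ c : ℤ, u < c ∧ c ≤ u + C * (a + b) ∧ (m : ℤ) ∣ c - c' ∧ TrueCase a b c) ∧
      ∀ (a b : ℕ) (c' : ℤ), Poss a b c' → ∀ ε : ℝ, 0 < ε → ∃ M₀ : ℕ, ∀ M : ℕ, M₀ ≤ M → ∀ u : ℤ,
        (1 / (m : ℝ) * (if 2 ∣ m then 1 else 1 / 2) * (if 3 ∣ m then 1 / 4 else 1 / 6) - ε) *
            (∏ l ∈ (a * b).primeFactors with 5 ≤ l ∧ ¬ l ∣ m, (1 - 2 / (l : ℝ))) * M ≤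
          {c : ℤ | u < c ∧ c ≤ u + M ∧ (m : ℤ) ∣ c - c' ∧ TrueCase a b c}.ncard) := by
  intro m hm
  have h := Pool.Agent.AL.alternativeM
  unfold Pool.Agent.AL.AlternativeM at h
  rw [hT, hP] at h
  rcases h m hm with ⟨K, hK, -, h1⟩ | h2
  · exact Or.inl ⟨K, hK, h1⟩
  · exact Or.inr h2

end Pool.Agent.Results.MP_bf63dc_nt.Alternative
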