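import Pool.Agent.helper99.IT.CNH
import Pool.Agent.helper99.IT.QUE
import Pool.Agent.helper99.IT.FHI
import Pool.Agent.helper43.IT.K4R
import Pool.Agent.helper98.IT.K4C

/-!
# Every centre: of all cases with the same `c / (a - b)` at least a third is true, and for almost every one of them one of `T, T², T³` (`T⁴`)

A case `(a, b, c)` of Q1 with `a ≠ b` is the map `T x = (b x + c) / a`, which has the fixed point (centre) `z = c / (a - b)`: `T x = r (x - z) + z` with `r = b / a`. The case is true if and only if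
`r = (p - z) / (q - z)` for infinitely many pairs of primes. For a fixed rational `z ≠ 0` let `F_z` be the set of ALL `r` for which `(a, b, z (a - b))` satisfies the conditions of Q1, and `1`. It is a group: the
composition of the maps `T`.

THEOREM. (1) For every `z` at least a third of the cases with centre `z` is true, in the sense of lower Banach density in the group `F_z`, and in each of its subgroups `G ≠ 1`: for every `ε > 0`
there are a finite `K ⊆ G` and `δ > 0` such that at least `(1/3 - ε) |F|` elements of `F` are true for every finite `F ⊆ G` such that for each `g ∈ K` at most `δ |F|` elements `x` of `F` have `x g ∉ F`.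
(2) For every `ε > 0` there is an `M₀`, which depends on nothing else, such that for all `z ≠ 0` and all geometric progressions `h, h g, ..., h g^(M-1)` in `F_z`, `g ≠ 1`, `M ≥ M₀`, all but at most `ε M` of
the terms `r` satisfy: at least one of `r, r², r³` is true, or, only needed if `3` divides `a - b` and not `c`, `r⁴`.

PROOF. Let `z = c₀ / m`. For finitely many elements of `F_z` let `s = A r` with a common denominator `A`. There is an integer `v` such that all `h = (c₀ + s v) / m` are integers prime to `s` and to `2`; they are prime to `3` if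
`3 ∤ m`, and, if `3 ∣ m`, for all `r` in two of the three classes modulo the subgroup of index `3` of the `r` with `3 ∣ c`. The forms `s n + h`
take at simultaneous primes `p, q` values with `(p - z) / (q - z)` the quotient of two elements. By a sieve of Maynard and Tao for
clusters of forms (proved in `Pool/Agent/helper38/AT`) all but a small proportion of the quadruples of elements of a large finite set, in these classes, contain two with a true quotient. (1) Join two elements if their quotient is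
not true, and take the largest `r ≤ 3` such that a positive proportion of the `r`-tuples of some large set is complete. For a finite set `F` with small boundary and some complete `r`-tuple `x_1, .., x_r` almost all `t y` and
`t⁻¹ y`, `t ∈ F`, in the two classes, are not joined to all the `x_i`, so have a true quotient by one of them; in every case the true elements of the three classes are at least a third of `F` (for one class only: the sets with the
least number of true quotients). (2) Removal lemma for `K_4`: the quadruples `h^(e_i) g^(e_i n₀ + 12 x_i)`, `x_i = t + e_i y`, `e = (0, 1, 2, 3)` or `(0, 1, 3, 4)`, with `n₀ + 12 y` exceptional.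
-/

set_option autoImplicit false

namespace Pool.Agent.helper99.Reserve.EveryCentre

open Finset

/-- The conditions of Q1 on `a, b, c`. -/
def Admissible (a b : ℕ) (c : ℤ) : Prop :=
  0 < a ∧ 0 < b ∧ c ≠ 0 ∧ Nat.Coprime a b ∧ IsCoprime (a : ℤ) c ∧ IsCoprime (b : ℤ) c ∧
    ¬ (Odd a ∧ Odd b ∧ Odd c)

/-- `(a, b, c)` satisfies the conditions of Q1 and `a p - b q = c` has infinitely many solutions in
primes `p, q`. -/
def TrueCase (a b : ℕ) (c : ℤ) : Prop :=
  Admissible a b c ∧ {pq : ℕ × ℕ | pq.1.Prime ∧ pq.2.Prime ∧ (a : ℤ) * pq.1 - b * pq.2 = c}.Infinite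

/-- `r = b / a` (in lowest terms) is `1`, or `c = z (a - b)` is an integer and `(a, b, c)` satisfies the conditions of Q1. -/
def InFamily (z r : ℚ) : Prop :=
  0 < r ∧ (r ≠ 1 → ∃ c : ℤ, (c : ℚ) = z * (r.den - r.num) ∧ Admissible r.den r.num.natAbs c)

/-- With `r = b / a` in lowest terms and `c = z (a - b)`, the case `(a, b, c)` is true. -/
def TrueAt (z r : ℚ) : Prop := ∃ c : ℤ, (c : ℚ) = z * (r.den - r.num) ∧ TrueCase r.den r.num.natAbs c

/-- With `r = b / a` in lowest terms and `c = z (a - b)`: `3` divides `a - b` and not `c`. -/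
def Three (z r : ℚ) : Prop := ∃ c : ℤ, (c : ℚ) = z * (r.den - r.num) ∧ (3 : ℤ) ∣ (r.den : ℤ) - r.num ∧ ¬ (3 : ℤ) ∣ c

theorem K4R_all : Pool.Agent.IT.K4R_stmt := Pool.Agent.IT.K4R Pool.Agent.IT.K4C

theorem hQ : Pool.Agent.IT.QSc := Pool.Agent.IT.QS (Pool.Agent.AT.Q_all 4 (by norm_num))

open Pool.Agent.IT (Fam FamH QuotZ)

theorem fam_of {z r : ℚ} (h : InFamily z r) : FamH z r := Pool.Agent.IT.famH_of h.1 h.2

theorem of_fam {z r : ℚ} (hz : z ≠ 0) (h : FamH z r) : InFamily z r := ⟨h.pos, fun h1 => Pool.Agent.IT.of_famH hz h h1⟩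

theorem trueAt_of {z r : ℚ} (hz : z ≠ 0) (hf : FamH z r) (hr1 : r ≠ 1) (h : QuotZ z r) : TrueAt z r := by
  obtain ⟨c, hc, had⟩ := Pool.Agent.IT.of_famH hz hf hr1
  exact ⟨c, hc, had, Pool.Agent.IT.sol_of hf.pos hc h⟩

theorem three_of {z r : ℚ} (hz : z ≠ 0) (hf : FamH z r) (h : ¬ Fam z r) : Three z r := by
  by_contra h3
  refine h (Pool.Agent.IT.fam_of3 hf.pos fun hr1 => ?_)
  obtain ⟨c, hc, had⟩ := Pool.Agent.IT.of_famH hz hf hr1
  refine ⟨c, hc, had, fun h4 => ?_⟩
  by_contra h5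
  exact h3 ⟨c, hc, h4, h5⟩

/-- **Every centre.** -/
theorem result :
    (∀ z : ℚ, z ≠ 0 → ∃ G : Subgroup ℚˣ, (G : Set ℚˣ).Infinite ∧ ∀ r : ℚˣ, r ∈ G ↔ InFamily z r) ∧
    (∀ z : ℚ, z ≠ 0 → ∀ G : Subgroup ℚˣ, G ≠ ⊥ → (∀ r ∈ G, InFamily z r) → ∀ ε : ℝ, 0 < ε →
      ∃ K : Finset ℚˣ, (∀ g ∈ K, g ∈ G) ∧ ∃ δ : ℝ, 0 < δ ∧ ∀ F : Finset ℚˣ, (∀ x ∈ F, x ∈ G) →
        (∀ g ∈ K, ({x | x ∈ F ∧ x * g ∉ F}.ncard : ℝ) ≤ δ * #F) →
          (1 / 3 - ε) * #F ≤ ({x : ℚˣ | x ∈ F ∧ TrueAt z x}.ncard : ℝ)) ∧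
    (∀ ε : ℝ, 0 < ε → ∃ M₀ : ℕ, ∀ M : ℕ, M₀ ≤ M → ∀ z : ℚ, z ≠ 0 → ∀ g h : ℚ, InFamily z g → g ≠ 1 → InFamily z h →
      ({n : ℕ | n < M ∧ ¬ (TrueAt z (h * g ^ n) ∨ TrueAt z ((h * g ^ n) ^ 2) ∨ TrueAt z ((h * g ^ n) ^ 3) ∨
        (Three z (h * g ^ n) ∧ TrueAt z ((h * g ^ n) ^ 4)))}.ncard : ℝ) ≤ ε * M) := by
  classical
  refine ⟨?_, ?_, ?_⟩
  · intro z hz
    refine ⟨{ carrier := {r | FamH z (r : ℚ)}, mul_mem' := ?_, one_mem' := ?_, inv_mem' := ?_ }, ?_, ?_⟩
    · intro a b ha hb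
      change FamH z ((a * b : ℚˣ) : ℚ)
      rw [Units.val_mul]
      exact ha.mul hb
    · change FamH z ((1 : ℚˣ) : ℚ)
      exact Pool.Agent.IT.Fam.one.toH
    · intro a ha
      change FamH z ((a⁻¹ : ℚˣ) : ℚ)
      rw [Units.val_inv_eq_inv_val]
      exact ha.inv
    · exact (Pool.Agent.IT.fam_infinite hz).mono fun r hr => hr.toH
    · intro r
      exact ⟨fun h => of_fam hz h, fun h => fam_of h⟩
  · intro z hz G hG hGF ε hε
    obtain ⟨K, hK, δ, hδ, H⟩ := Pool.Agent.IT.CENH hQ z G (fun r hr => fam_of (hGF r hr)) (by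
      by_contra hne
      push Not at hne
      exact hG ((Subgroup.eq_bot_iff_forall _).2 hne)) ε hε
    refine ⟨K, hK, δ, hδ, fun F hF hF2 => ?_⟩
    have h1 := H F hF (fun g hg => by
      refine le_trans (le_of_eq ?_) (hF2 g hg)
      rw [← Set.ncard_coe_finset]
      congr 2
      ext x
      simp only [mem_coe, mem_filter, Set.mem_ofPred_eq])
    refine h1.trans ?_
    rw [← Set.ncard_coe_finset]
    refine Nat.cast_le.2 (Set.ncard_le_ncard ?_ ((finite_toSet F).subset fun x hx => hx.1))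
    intro x hx
    rw [mem_coe, mem_filter] at hx
    exact ⟨hx.1, trueAt_of hz (fam_of (hGF x (hF x hx.1))) (fun h => hx.2.1 (Units.ext h)) hx.2.2⟩
  · intro ε hε
    obtain ⟨M₁, h1⟩ := Pool.Agent.IT.QUH (Pool.Agent.IT.GCT K4R_all) hQ (ε / 2) (by linarith)
    obtain ⟨M₂, hM₂⟩ := exists_nat_gt (2 / ε)
    refine ⟨max M₁ M₂, fun M hM z hz g h hg hg1 hh => ?_⟩
    have hgF := fam_of hg
    have hhF := fam_of hh
    have hg0 := hgF.pos
    have h2 := h1 M ((le_max_left _ _).trans hM) z g h hgF hg1 hhF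
    obtain ⟨B, hB⟩ : ∃ B : Finset ℕ, ∀ n, n ∈ B ↔ n < M ∧ ¬ (QuotZ z (h * g ^ n) ∨ QuotZ z ((h * g ^ n) ^ 2) ∨ QuotZ z ((h * g ^ n) ^ 3) ∨
        (¬ Fam z (h * g ^ n) ∧ QuotZ z ((h * g ^ n) ^ 4))) := ⟨(range M).filter fun n => ¬ (QuotZ z (h * g ^ n) ∨ QuotZ z ((h * g ^ n) ^ 2) ∨
          QuotZ z ((h * g ^ n) ^ 3) ∨ (¬ Fam z (h * g ^ n) ∧ QuotZ z ((h * g ^ n) ^ 4))), fun n => by rw [mem_filter, mem_range]⟩
    have hBc : (#B : ℝ) ≤ ε / 2 * M := by
      refine le_trans (le_of_eq ?_) h2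
      congr 2
      ext n
      rw [hB, mem_filter, mem_range]
    have hsub : {n : ℕ | n < M ∧ ¬ (TrueAt z (h * g ^ n) ∨ TrueAt z ((h * g ^ n) ^ 2) ∨ TrueAt z ((h * g ^ n) ^ 3) ∨
        (Three z (h * g ^ n) ∧ TrueAt z ((h * g ^ n) ^ 4)))} ⊆ (B ∪ (range M).filter (fun n => h * g ^ n = 1) : Finset ℕ) := by
      rintro n ⟨hn, hn2⟩
      rw [mem_coe, mem_union, hB, mem_filter, mem_range]
      by_cases hr1 : h * g ^ n = 1
      · exact Or.inr ⟨hn, hr1⟩
      · refine Or.inl ⟨hn, fun hq => hn2 ?_⟩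
        have hrF : FamH z (h * g ^ n) := hhF.mul (hgF.pow n)
        have hr0 := hrF.pos
        rcases hq with hq | hq | hq | ⟨hq0, hq⟩
        · exact Or.inl (trueAt_of hz hrF hr1 hq)
        · exact Or.inr (Or.inl (trueAt_of hz (hrF.pow 2) (fun h => hr1 ((pow_eq_one_iff_of_nonneg hr0.le (by norm_num)).1 h)) hq))
        · exact Or.inr (Or.inr (Or.inl (trueAt_of hz (hrF.pow 3) (fun h => hr1 ((pow_eq_one_iff_of_nonneg hr0.le (by norm_num)).1 h)) hq)))
        · exact Or.inr (Or.inr (Or.inr ⟨three_of hz hrF hq0,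
            trueAt_of hz (hrF.pow 4) (fun h => hr1 ((pow_eq_one_iff_of_nonneg hr0.le (by norm_num)).1 h)) hq⟩))
    have h3 := Set.ncard_le_ncard hsub (finite_toSet _)
    rw [Set.ncard_coe_finset] at h3
    have h4 : #((range M).filter (fun n => h * g ^ n = 1)) ≤ 1 := by
      rw [card_le_one]
      intro i hi j hj
      have h5 : g ^ i = g ^ j := mul_left_cancel₀ hhF.pos.ne' ((mem_filter.1 hi).2.trans (mem_filter.1 hj).2.symm)
      exact pow_right_injective₀ hg0 hg1 h5
    have h7 := h3.trans ((card_union_le _ _).trans (Nat.add_le_add_left h4 _))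
    have h8 : (({n : ℕ | n < M ∧ ¬ (TrueAt z (h * g ^ n) ∨ TrueAt z ((h * g ^ n) ^ 2) ∨ TrueAt z ((h * g ^ n) ^ 3) ∨
        (Three z (h * g ^ n) ∧ TrueAt z ((h * g ^ n) ^ 4)))}.ncard : ℕ) : ℝ) ≤ #B + 1 := by exact_mod_cast h7
    have h9 : 1 ≤ ε / 2 * M := by
      have h8 : (2 / ε : ℝ) < M := hM₂.trans_le (by exact_mod_cast (le_max_right _ _).trans hM)
      rw [div_lt_iff₀ hε] at h8
      linarith
    linarith

end Pool.Agent.helper99.Reserve.EveryCentre
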