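import Pool.Agent.helper99.EP.AllA
import Pool.Agent.helper99.EP.UQCx

/-!
# Every pair `(a, b)`: a third of all cases of Q1 are true for `(u a, b)`, `u` from a fixed finite set

THEOREM. For every `k ≥ 3` and `ε > 0` there is a set `S` of at most `k` positive integers such that for ALL `a, b ≥ 1` there is a `u ∈ S` for which
the pair `(u a, b)`, divided by its gcd, has at least the share `1/3 - 2/(3 k) - ε` of all its cases of Q1 true: for arbitrarily large `X` the true
`c`, `|c| ≤ X`, have at least this part of the mass of the admissible `c`, `|c| ≤ X`, where `c` is counted with the singular series of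
`a p - b q = c`. So for every `ε > 0` there is a FINITE set `S` such that for ALL `a, b` some `u ∈ S` makes a third of all `c`, up to `ε`, true for
`(u a, b)`; and THREE integers suffice for a tenth.

PROOF. Rows and complete proofs in `Pool/Agent/helper99/EP/Spec.lean` and `Top.lean`. The input (`Pool.Agent.helper11.TX.DF_of`) is: for every finite set `X` of positive
integers the mean value of the share of the true cases over the pairs `(s, t) ∈ X²` is at least `1/3 - ε'` at every large scale; it follows from a theorem of the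
kind of Maynard and Tao for four clusters of linear forms (with Rosser's sieve and a switching argument, all proved in the files imported), and the weighted inequality of
Turan. Call `s`, `t` related if the reduced pair of `s, t` has the share `δ` for arbitrarily large scales. This does not change if both numbers are multiplied by the
same integer. If no two of the `m` elements of a set are related, then `m²/3 ≤ m + m (m - 1) δ + ε'`, so `m ≤ k` if `δ < 1/3 - 2/(3 k)`. Take a set `S` without related elements
which has the MAXIMUM number of elements. For given `a`, `b` the set `S a ∪ {b}` has one element more (or `b ∈ S a`), so it contains two related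
elements; these are not both in `S a`, as two related elements `s a`, `s' a` would give related elements `s`, `s'` of `S`. So `b` is related to `u a`, `u ∈ S`.
-/

set_option autoImplicit false

namespace Pool.Agent.Results.MP_bf63dc_nt.EveryPair

open Finset

/-- The conditions of Q1 on `a, b, c`. -/
def Admissible (a b : ℕ) (c : ℤ) : Prop :=
  0 < a ∧ 0 < b ∧ c ≠ 0 ∧ Nat.Coprime a b ∧ IsCoprime (a : ℤ) c ∧ IsCoprime (b : ℤ) c ∧
    ¬ (Odd a ∧ Odd b ∧ Odd c)

/-- `(a, b, c)` satisfies the conditions of Q1 and `a p - b q = c` has infinitely many solutions in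
primes `p, q`. -/
def TrueCase (a b : ℕ) (c : ℤ) : Prop :=
  Admissible a b c ∧ {pq : ℕ × ℕ | pq.1.Prime ∧ pq.2.Prime ∧ (a : ℤ) * pq.1 - b * pq.2 = c}.Infinite

/-- The singular series of `a p - b q = c` up to a constant factor: the product of `(l - 1)/(l - 2)` over the primes `l ≠ 2` dividing
`a b c`. -/
noncomputable def SS (a b : ℕ) (c : ℤ) : ℝ :=
  ∏ l ∈ (a * b * c.natAbs).primeFactors with l ≠ 2, ((l : ℝ) - 1) / ((l : ℝ) - 2)

/-- The mass of the `c` with `|c| ≤ X` and `P a b c`: the sum of `SS a b c`. -/
noncomputable def Mass (P : ℕ → ℕ → ℤ → Prop) (a b X : ℕ) : ℝ :=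
  ∑ c ∈ Icc (-(X : ℤ)) X, Set.indicator {c | P a b c} (SS a b) c

/-- For the pair `(s, t)` divided by its gcd the true `c`, `|c| ≤ X`, have at least the part `δ` of the mass of all admissible `c`, `|c| ≤ X`, for arbitrarily
large `X`. -/
def Share (δ : ℝ) (s t : ℕ) : Prop := ∀ X₀ : ℕ, ∃ X : ℕ, X₀ ≤ X ∧
  δ * Mass Admissible (s / Nat.gcd s t) (t / Nat.gcd s t) X ≤ Mass TrueCase (s / Nat.gcd s t) (t / Nat.gcd s t) X

theorem hT : Pool.Agent.helper85.FC.TrueCase = TrueCase := by
  funext a b c
  unfold Pool.Agent.helper85.FC.TrueCase TrueCase Admissible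
  simp only [and_assoc]

theorem hM (P : ℕ → ℕ → ℤ → Prop) (a b X : ℕ) : Pool.Agent.EP.Ms P a b X = Mass P a b X := by
  unfold Pool.Agent.EP.Ms Mass
  rw [sum_filter]
  refine sum_congr rfl fun c _ => ?_
  by_cases hc : P a b c
  · rw [if_pos hc, Set.indicator_of_mem (show c ∈ {c | P a b c} from hc)]
    rfl
  · rw [if_neg hc, Set.indicator_of_notMem (show c ∉ {c | P a b c} from hc)]

/-- **Every pair.** -/
theorem result (k : ℕ) (ε : ℝ) (hk : 3 ≤ k) (hε : 0 < ε) : ∃ S : Finset ℕ, #S ≤ k ∧ (∀ u ∈ S, 1 ≤ u) ∧
    ∀ a b : ℕ, 1 ≤ a → 1 ≤ b → ∃ u ∈ S, Share (1 / 3 - 2 / (3 * k) - ε) (u * a) b := by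
  obtain ⟨S, h1, h2, h3⟩ := Pool.Agent.EP.TOPK Pool.Agent.EP.MXC Pool.Agent.EP.UQS_all Pool.Agent.EP.UQCx
    Pool.Agent.EP.DF_all k ε hk hε
  refine ⟨S, h1, h2, fun a b ha hb => ?_⟩
  obtain ⟨u, hu, h4⟩ := h3 a b ha hb
  refine ⟨u, hu, fun X₀ => ?_⟩
  obtain ⟨X, hX, h5⟩ := h4 X₀
  refine ⟨X, hX, ?_⟩
  rw [hM, hM, hT] at h5
  exact h5

end Pool.Agent.Results.MP_bf63dc_nt.EveryPair
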