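import Pool.Agent.helper9.HLR.Main

/-!
# Subgraphs of the hypercube with a linear number of vertices: the second term

`V d` is `Fin d → Bool`; `cube d` joins two strings at Hamming distance one; `sub U` is the
subgraph induced on `U`; `IsEig U t` says that `t` is an eigenvalue of its adjacency matrix;
`IsTop U t` that it is the largest one; `lam d m` is the maximum of the largest eigenvalue over
all sets of `m` vertices.
-/

namespace Pool.Agent.Results.MP_d9e35a_co.LinearRange

open Pool.Agent.helper65.HC

theorem result : ∀ K : ℕ, 1 ≤ K → ∃ (C : ℝ) (d₀ : ℕ), 0 < C ∧ ∀ d ≥ d₀, ∀ m : ℕ,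
    K * d ≤ m → m < (K + 1) * d →
    IsGreatest {t | ∃ U : Finset (V d), U.card = m ∧ IsTop U t} (lam d m) ∧
    lam K K - C / √d ≤ lam d m - √d ∧
    lam d m - √d ≤ lam K K + C * √d / ((K + 1) * d - m) :=
  Pool.Agent.helper9.HLR.main

end Pool.Agent.Results.MP_d9e35a_co.LinearRange
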