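import Pool.Agent.helper99.IT.QUO
import Pool.Agent.helper43.IT.K4R
import Pool.Agent.helper98.IT.K4C
import Pool.Agent.helper38.AT.All

/-!
# Quotients of shifted primes in geometric progressions

Q1 implies that for every `c ≠ 0` every positive rational number `r` prime to `c` is a quotient `(p - c) / (q - c)` for infinitely many pairs of primes `p, q`
(if `r = b / a` in lowest terms this is the case `(a, b, (a - b) c)` of Q1).

THEOREM. For every `ε > 0` there is an `M₀`, which depends on nothing else, such that for all `c ≠ 0`, all positive rational numbers `g ≠ 1` and `h` prime to `c` and all `M ≥ M₀`, all but at most `ε M` of the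
terms `r` of the geometric progression `h, h g, ..., h g^(M-1)` have this property: at least one of `r, r², r³` is a quotient `(p - c) / (q - c)` for infinitely many pairs of primes.
So for every `c ≠ 0` the set of all exceptions has upper Banach density `0` in the multiplicative group of the positive rational numbers prime to `c`; and for each exceptional case `(a, b, (a - b) c)`
of Q1, apart from these exceptions, one of the cases `(a², b², (a² - b²) c)` and `(a³, b³, (a³ - b³) c)` is true.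

PROOF. By the theorem on almost all quadruples of linear forms (a sieve of Maynard and Tao for clusters of forms, proved in `Pool/Agent/helper38/AT`), for finite sets `F_i` of at least `N` forms `u n + c` all but `C N^(4 - δ)`
quadruples contain two forms which are prime simultaneously infinitely often, and then their quotient `u_j / u_i` is a quotient of shifted primes. Let `E` be the set of the exceptional exponents `n` in an interval
of length `M` and suppose that `|E| ≥ ε M`; let `n₀ + 6 y`, `y < L`, be the elements of a class modulo 6 in which `E` is dense. Join the numbers `h^i g^(i n₀ + 6 x)` and `h^j g^(j n₀ + 6 x')` if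
`n₀ + (6 / (j - i)) (x' - x)` belongs to `E`: their quotient is the `(j - i)`-th power of the exceptional `h g^n`. The quadruples `x_i = t + i y` with `n₀ + 6 y ∈ E` are complete graphs `K_4` without common edges, at least
`ε' L²` of them in a graph with `O(L)` vertices. By the removal lemma for `K_4` (proved from Szemerédi's regularity lemma) the graph contains at least `δ' L⁴` complete graphs `K_4`, and none of them contains
a true pair: a contradiction for `L` large.
-/

set_option autoImplicit false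

namespace Pool.Agent.Results.MP_bf63dc_nt.ShiftedPrimeQuotients

open Finset

/-- The conditions of Q1 on `a, b, c`. -/
def Admissible (a b : ℕ) (c : ℤ) : Prop :=
  0 < a ∧ 0 < b ∧ c ≠ 0 ∧ Nat.Coprime a b ∧ IsCoprime (a : ℤ) c ∧ IsCoprime (b : ℤ) c ∧
    ¬ (Odd a ∧ Odd b ∧ Odd c)

/-- `(a, b, c)` satisfies the conditions of Q1 and `a p - b q = c` has infinitely many solutions in
primes `p, q`. -/
def TrueCase (a b : ℕ) (c : ℤ) : Prop :=
  Admissible a b c ∧ {pq : ℕ × ℕ | pq.1.Prime ∧ pq.2.Prime ∧ (a : ℤ) * pq.1 - b * pq.2 = c}.Infinite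

/-- `r = (p - c) / (q - c)` for infinitely many pairs of primes `p, q`. -/
def Quotient (c : ℤ) (r : ℚ) : Prop :=
  {pq : ℕ × ℕ | pq.1.Prime ∧ pq.2.Prime ∧ (pq.1 : ℚ) - c = r * (pq.2 - c)}.Infinite

/-- `r` is positive and its numerator and denominator are prime to `c`. -/
def PrimeTo (c : ℤ) (r : ℚ) : Prop :=
  0 < r ∧ IsCoprime r.num c ∧ IsCoprime (r.den : ℤ) c

theorem K4R_all : Pool.Agent.IT.K4R_stmt := Pool.Agent.IT.K4R Pool.Agent.IT.K4C

theorem prTo {c : ℤ} {r : ℚ} (h : PrimeTo c r) : Pool.Agent.IT.PrTo c r := by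
  obtain ⟨h0, h1, h2⟩ := h
  refine ⟨h0, fun p hp hpc => ?_⟩
  have := Fact.mk hp
  have n1 : ¬ (p : ℤ) ∣ r.num := by
    intro h3
    have h4 := h1.isUnit_of_dvd' h3 hpc
    rw [Int.isUnit_iff_natAbs_eq, Int.natAbs_natCast] at h4
    exact hp.one_lt.ne' h4
  have n2 : ¬ p ∣ r.den := by
    intro h3
    have h4 := h2.isUnit_of_dvd' (Int.natCast_dvd_natCast.2 h3) hpc
    rw [Int.isUnit_iff_natAbs_eq, Int.natAbs_natCast] at h4
    exact hp.one_lt.ne' h4
  rw [padicValRat_def, padicValInt.eq_zero_of_not_dvd n1, padicValNat.eq_zero_of_not_dvd n2]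
  rfl

theorem pow_ne_one {g : ℚ} (h0 : 0 < g) (h1 : g ≠ 1) {n : ℤ} (h : g ^ n = 1) : n = 0 := by
  by_contra hn
  rcases lt_or_gt_of_ne h1 with h2 | h2
  · rcases lt_or_gt_of_ne hn with h3 | h3
    · exact (one_lt_zpow_of_neg₀ h0 h2 h3).ne' h
    · exact (zpow_lt_one₀ h0 h2 h3).ne h
  · rcases lt_or_gt_of_ne hn with h3 | h3
    · exact (zpow_lt_one_of_neg₀ h2 h3).ne h
    · exact (one_lt_zpow₀ h2 h3).ne' h

/-- **Quotients of shifted primes in geometric progressions.** -/
theorem result :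
    (∀ ε : ℝ, 0 < ε → ∃ M₀ : ℕ, ∀ M : ℕ, M₀ ≤ M → ∀ c : ℤ, c ≠ 0 → ∀ g h : ℚ, PrimeTo c g → g ≠ 1 → PrimeTo c h →
      ({n : ℕ | n < M ∧ ¬ (Quotient c (h * g ^ n) ∨ Quotient c ((h * g ^ n) ^ 2) ∨ Quotient c ((h * g ^ n) ^ 3))}.ncard : ℝ) ≤ ε * M) ∧
    (∀ (c : ℤ) (a b : ℕ), c ≠ 0 → 0 < a → 0 < b → a ≠ b → Nat.Coprime a b → IsCoprime (a : ℤ) c → IsCoprime (b : ℤ) c →
      ∀ m : ℕ, 1 ≤ m → (Quotient c (((b : ℚ) / a) ^ m) ↔ TrueCase (a ^ m) (b ^ m) (((a : ℤ) ^ m - (b : ℤ) ^ m) * c))) := by
  classical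
  refine ⟨?_, ?_⟩
  · intro ε hε
    obtain ⟨M₀, h1⟩ := Pool.Agent.IT.QUO K4R_all (Pool.Agent.IT.QS (Pool.Agent.AT.Q_all 4 (by norm_num))) 1 one_pos ε hε
    refine ⟨M₀, fun M hM c hc g h hg hg1 hh => ?_⟩
    have h2 := h1 M hM c hc (fun _ => g) (fun _ => prTo hg) (fun n hn => by
      rw [Fin.prod_univ_one] at hn
      funext i
      rw [Subsingleton.elim i 0]
      exact pow_ne_one hg.1 hg1 hn) h (prTo hh) (fun _ => -1)
    rw [pow_one] at h2
    refine le_trans ?_ h2
    have h3 : {n : ℕ | n < M ∧ ¬ (Quotient c (h * g ^ n) ∨ Quotient c ((h * g ^ n) ^ 2) ∨ Quotient c ((h * g ^ n) ^ 3))} =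
        ((range M).filter fun n => ¬ (Quotient c (h * g ^ n) ∨ Quotient c ((h * g ^ n) ^ 2) ∨ Quotient c ((h * g ^ n) ^ 3)) : Finset ℕ) := by
      ext n
      simp [mem_range]
    rw [h3, Set.ncard_coe_finset]
    refine Nat.cast_le.2 (card_le_card_of_injOn (fun n _ => (n : ℤ)) ?_ ?_)
    · intro n hn
      rw [mem_coe, mem_filter, mem_range] at hn
      rw [mem_coe, mem_filter, Fintype.mem_piFinset]
      refine ⟨fun k => ?_, ?_⟩
      · rw [mem_Ioc]
        change (-1 : ℤ) < (n : ℤ) ∧ (n : ℤ) ≤ -1 + M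
        constructor <;> omega
      · rw [Fin.prod_univ_one, zpow_natCast]
        exact hn.2
    · intro m _ n _ hmn
      have h4 : (m : ℤ) = (n : ℤ) := congrFun hmn 0
      exact_mod_cast h4
  · intro c a b hc ha hb hab hco hac hbc m hm
    have hm0 : m ≠ 0 := by omega
    have ha0 : (a : ℚ) ≠ 0 := by exact_mod_cast ha.ne'
    have hset : {pq : ℕ × ℕ | pq.1.Prime ∧ pq.2.Prime ∧ (pq.1 : ℚ) - c = ((b : ℚ) / a) ^ m * (pq.2 - c)} =
        {pq : ℕ × ℕ | pq.1.Prime ∧ pq.2.Prime ∧ ((a ^ m : ℕ) : ℤ) * pq.1 - (b ^ m : ℕ) * pq.2 = ((a : ℤ) ^ m - (b : ℤ) ^ m) * c} := by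
      ext pq
      simp only [Set.mem_ofPred_eq]
      refine and_congr_right fun _ => and_congr_right fun _ => ?_
      constructor
      · intro h
        have h1 : (a : ℚ) ^ m * ((pq.1 : ℚ) - c) = (b : ℚ) ^ m * (pq.2 - c) := by
          rw [h, div_pow]
          field_simp
        have h2 : ((((a ^ m : ℕ) : ℤ) * pq.1 - (b ^ m : ℕ) * pq.2 : ℤ) : ℚ) = ((((a : ℤ) ^ m - (b : ℤ) ^ m) * c : ℤ) : ℚ) := by
          push_cast
          linarith
        exact_mod_cast h2
      · intro h
        have h2 : ((((a ^ m : ℕ) : ℤ) * pq.1 - (b ^ m : ℕ) * pq.2 : ℤ) : ℚ) = ((((a : ℤ) ^ m - (b : ℤ) ^ m) * c : ℤ) : ℚ) := by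
          rw [h]
        push_cast at h2
        rw [div_pow, div_mul_eq_mul_div, eq_div_iff (pow_ne_zero _ ha0)]
        linarith
    have hadm : Admissible (a ^ m) (b ^ m) (((a : ℤ) ^ m - (b : ℤ) ^ m) * c) := by
      have hne : (a : ℤ) ^ m - (b : ℤ) ^ m ≠ 0 := by
        intro h
        have h1 : (a : ℤ) ^ m = (b : ℤ) ^ m := by linarith
        have h2 : a ^ m = b ^ m := by exact_mod_cast h1
        exact hab (Nat.pow_left_injective hm0 h2)
      have hco' : IsCoprime ((a : ℤ) ^ m) ((b : ℤ) ^ m) := (Nat.isCoprime_iff_coprime.2 hco).pow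
      refine ⟨pow_pos ha _, pow_pos hb _, mul_ne_zero hne hc, hco.pow _ _, ?_, ?_, ?_⟩
      · refine IsCoprime.mul_right ?_ ?_
        · push_cast
          have h1 : (a : ℤ) ^ m - (b : ℤ) ^ m = -(b : ℤ) ^ m + (a : ℤ) ^ m * 1 := by ring
          rw [h1]
          exact (IsCoprime.add_mul_left_right_iff).2 hco'.neg_right
        · push_cast
          exact hac.pow_left
      · refine IsCoprime.mul_right ?_ ?_
        · push_cast
          have h1 : (a : ℤ) ^ m - (b : ℤ) ^ m = (a : ℤ) ^ m + (b : ℤ) ^ m * (-1) := by ring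
          rw [h1]
          exact (IsCoprime.add_mul_left_right_iff).2 hco'.symm
        · push_cast
          exact hbc.pow_left
      · rintro ⟨h1, h2, h3⟩
        rw [Int.odd_mul] at h3
        have h4 : Even ((a : ℤ) ^ m - (b : ℤ) ^ m) := by
          have h5 : Odd ((a : ℤ) ^ m) := by exact_mod_cast (Int.odd_coe_nat _).2 h1
          have h6 : Odd ((b : ℤ) ^ m) := by exact_mod_cast (Int.odd_coe_nat _).2 h2
          exact h5.sub_odd h6
        exact (Int.not_odd_iff_even.2 h4) h3.1
    unfold Quotient TrueCase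
    rw [hset]
    exact ⟨fun h => ⟨hadm, h⟩, fun h => h.2⟩

end Pool.Agent.Results.MP_bf63dc_nt.ShiftedPrimeQuotients
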